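import Mathlib
import Pool.Agent.Y868.ZE.K10

/-!
# Level sets along the orbits of all totally uniquely ergodic systems

From the starting files: prerequisites of Halász's mean value theorem for multiplicative functions with
values in the unit disc, on which `Pool.Agent.Y868.VR` is built. From Mathlib: `MeasurePreserving (T^[k]) ν ν`
says that `ν` is invariant under the `k`-th iterate of `T`; `Nat.Primes` is the
type of the primes; `ZMod.unitOfCoprime p h` is the residue class of `p`.
-/

set_option autoImplicit false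

namespace Pool.Agent.Results.MP_2e860a_nt.AllSystems

open Finset Filter Topology MeasureTheory

/-- the logarithmic average `(1 / log N) ∑_{n ≤ N} b n / n` -/
noncomputable def logAv (b : ℕ → ℂ) (N : ℕ) : ℂ :=
  ((1 : ℂ) / ((Real.log (N : ℝ) : ℝ) : ℂ)) * ∑ n ∈ Icc 1 N, ((1 : ℂ) / (n : ℂ)) * b n

/-- multiplicative functions (no bound on the values) -/
def Mult (g : ℕ → ℂ) : Prop :=
  g 1 = 1 ∧ ∀ m n : ℕ, 0 < m → 0 < n → Nat.Coprime m n → g (m * n) = g m * g n

section

variable {X : Type} [MetricSpace X] [CompactSpace X] [MeasurableSpace X] [BorelSpace X]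

/-- totally uniquely ergodic systems; no condition on the entropy -/
def TUE (T : X → X) (μ : Measure X) : Prop :=
  Continuous T ∧ IsProbabilityMeasure μ ∧ MeasurePreserving T μ μ ∧
    ∀ k : ℕ, 1 ≤ k → ∀ ν : Measure X, IsProbabilityMeasure ν → MeasurePreserving (T^[k]) ν ν → ν = μ

open scoped Classical in
/-- the assertion of Q1 for the level set `{n : g n = c}`, for all continuous functions and all
points -/
def Holds (T : X → X) (μ : Measure X) (g : ℕ → ℂ) (c : ℂ) : Prop :=
  ∀ (f : C(X, ℂ)) (x : X),
    Tendsto (logAv fun n => (if g n = c then (1 : ℂ) else 0) * (f (T^[n] x) - ∫ y, f y ∂μ))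
      atTop (𝓝 0)

end

/-- For every totally uniquely ergodic system, of any entropy, the assertion of Q1 holds for `c = 0` and
all multiplicative `g : ℕ → ℂ`, and for all `c` and all `g` in two classes: the `g` which are not of
finite order at almost all primes, that is, for each `k ≥ 1` the sum of `1/p` over the primes with
`g(p)^k ≠ 1` diverges; and the `g` which agree with a homomorphism of the group of the reduced
residues mod some `q` to `ℂˣ`, up to a set of primes with a convergent sum of reciprocals. -/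
theorem result :
    ∀ (X : Type) [MetricSpace X] [CompactSpace X] [MeasurableSpace X] [BorelSpace X]
      (T : X → X) (μ : Measure X), TUE T μ → ∀ g : ℕ → ℂ, Mult g →
      Holds T μ g 0 ∧
      ((∀ k : ℕ, 1 ≤ k →
          ¬ Summable (fun p : Nat.Primes => if g p ^ k = 1 then 0 else 1 / ((p : ℕ) : ℝ))) →
        ∀ c : ℂ, Holds T μ g c) ∧
      ∀ q : ℕ, 0 < q → ∀ ψ : (ZMod q)ˣ →* ℂˣ,
        Summable (fun p : Nat.Primes => if h : Nat.Coprime p q then
          (if g p = (ψ (ZMod.unitOfCoprime p h) : ℂ) then 0 else 1 / ((p : ℕ) : ℝ)) else 0) →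
        ∀ c : ℂ, Holds T μ g c := by
  intro X _ _ _ _ T μ hT g hg
  obtain ⟨hTc, hμ, hinv, huniq⟩ := hT
  have hbd : ∀ (S : ℕ → X) (f : C(X, ℂ)) (n : ℕ), ‖f (S n) - ∫ y, f y ∂μ‖ ≤ ‖f‖ + ‖∫ y, f y ∂μ‖ :=
    fun S f n => (norm_sub_le _ _).trans (add_le_add (f.norm_coe_le_norm _) le_rfl)
  have hzero : Holds T μ g 0 := by
    intro f x
    exact Pool.Agent.Y868.ZE.zero_level hg (hbd (fun n => T^[n] x) f) fun d hd =>
      Pool.Agent.Y868.ZE.tue hTc huniq f x hd
  refine ⟨hzero, ?_, ?_⟩
  · intro hk c f x
    by_cases hc : c = 0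
    · subst hc
      exact hzero f x
    have h1 := Pool.Agent.Y868.ZE.null_restrict (fun n => by positivity)
      (Pool.Agent.Y868.ZE.null_level hg hk hc) (hbd (fun n => T^[n] x) f)
    refine h1.congr fun N => Pool.Agent.Y868.ZE.LA_congr (fun n _ => ?_) N
    split_ifs <;> simp
  · intro q hq ψ hs c f x
    refine Pool.Agent.Y868.ZE.dirichlet_level hg (hbd (fun n => T^[n] x) f) hq ψ hs
      (fun d hd r => ?_) c
    have h1 := Pool.Agent.Y868.ZE.tue hTc huniq f (T^[r] x) hd
    refine h1.congr fun N => ?_
    congr 1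
    funext n
    rw [← Function.iterate_add_apply]

end Pool.Agent.Results.MP_2e860a_nt.AllSystems
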