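import Mathlib
import Pool.Agent.Y868.ZE.K14

/-!
# Level sets along the orbits of systems with discrete spectrum

From Mathlib: `MeasurePreserving (T^[k]) ν ν` says that `ν` is invariant under the `k`-th iterate of `T`.
-/

set_option autoImplicit false

namespace Pool.Agent.Results.MP_2e860a_nt.DiscreteSpectrumSystems

open Finset Filter Topology MeasureTheory

/-- the logarithmic average `(1 / log N) ∑_{n ≤ N} b n / n` -/
noncomputable def logAv (b : ℕ → ℂ) (N : ℕ) : ℂ :=
  ((1 : ℂ) / ((Real.log (N : ℝ) : ℝ) : ℂ)) * ∑ n ∈ Icc 1 N, ((1 : ℂ) / (n : ℂ)) * b n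

/-- multiplicative functions (no bound on the values) -/
def Mult (g : ℕ → ℂ) : Prop :=
  g 1 = 1 ∧ ∀ m n : ℕ, 0 < m → 0 < n → Nat.Coprime m n → g (m * n) = g m * g n

section

variable {X : Type} [MetricSpace X] [CompactSpace X] [MeasurableSpace X] [BorelSpace X]

/-- totally uniquely ergodic systems; no condition on the entropy -/
def TUE (T : X → X) (μ : Measure X) : Prop :=
  Continuous T ∧ IsProbabilityMeasure μ ∧ MeasurePreserving T μ μ ∧
    ∀ k : ℕ, 1 ≤ k → ∀ ν : Measure X, IsProbabilityMeasure ν → MeasurePreserving (T^[k]) ν ν → ν = μ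

open scoped Classical in
/-- the assertion of Q1 for the level set `{n : g n = c}`, for all continuous functions and all
points -/
def Holds (T : X → X) (μ : Measure X) (g : ℕ → ℂ) (c : ℂ) : Prop :=
  ∀ (f : C(X, ℂ)) (x : X),
    Tendsto (logAv fun n => (if g n = c then (1 : ℂ) else 0) * (f (T^[n] x) - ∫ y, f y ∂μ))
      atTop (𝓝 0)

/-- `φ` is a bounded measurable eigenfunction with eigenvalue `z` -/
def Eigenfunction (T : X → X) (μ : Measure X) (φ : X → ℂ) (z : ℂ) : Prop :=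
  Measurable φ ∧ (∃ C : ℝ, ∀ x, ‖φ x‖ ≤ C) ∧ ‖z‖ = 1 ∧ ∀ᵐ x ∂μ, φ (T x) = z * φ x

/-- discrete spectrum: the continuous functions are limits in `L²(μ)` of finite sums of
eigenfunctions -/
def DiscreteSpectrum (T : X → X) (μ : Measure X) : Prop :=
  ∀ (f : C(X, ℂ)) (ε : ℝ), 0 < ε → ∃ (m : ℕ) (φ : Fin m → X → ℂ) (z : Fin m → ℂ),
    (∀ i, Eigenfunction T μ (φ i) (z i)) ∧ ∫ x, ‖f x - ∑ i, φ i x‖ ^ 2 ∂μ < ε

end

/-- Q1 holds in full for the totally uniquely ergodic systems with discrete spectrum: for all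
multiplicative `g : ℕ → ℂ`, bounded or not, all `c`, all continuous `f` and all points `x`, the
logarithmic averages of `1_{g(n) = c} (f(T^n x) - ∫ f dμ)` tend to zero. The eigenfunctions need not
be continuous. -/
theorem result :
    ∀ (X : Type) [MetricSpace X] [CompactSpace X] [MeasurableSpace X] [BorelSpace X]
      (T : X → X) (μ : Measure X), TUE T μ → DiscreteSpectrum T μ →
      ∀ g : ℕ → ℂ, Mult g → ∀ c : ℂ, Holds T μ g c := by
  intro X _ _ _ _ T μ hT hds g hg c f x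
  obtain ⟨hTc, hμ, hinv, huniq⟩ := hT
  refine Pool.Agent.Y868.ZE.dyn_ds hTc hinv huniq f (fun ε hε => ?_) hg c x
  refine Pool.Agent.Y868.ZE.ds_approx hTc hinv huniq (fun f' ε' hε' => ?_) f hε
  obtain ⟨m, φ, z, h1, h2⟩ := hds f' ε' hε'
  exact ⟨m, φ, z, fun i => ⟨(h1 i).1, (h1 i).2.1, (h1 i).2.2.1, (h1 i).2.2.2⟩, h2⟩

end Pool.Agent.Results.MP_2e860a_nt.DiscreteSpectrumSystems
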