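import Mathlib
import Pool.Agent.Y868.ZE.K10

/-!
# Level sets along orbits: disjoint powers

From the starting files: prerequisites of Halász's mean value theorem for multiplicative functions with
values in the unit disc, on which `Pool.Agent.Y868.VR` is built. From Mathlib: `MeasurePreserving (T^[k]) ν ν`
says that `ν` is invariant under the `k`-th iterate of `T`; `Submodule.span ℂ D` is the
linear span of `D`; `Set.indicator P` restricts a function to `P`.
-/

set_option autoImplicit false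

namespace Pool.Agent.Results.MP_2e860a_nt.DisjointPowers

open Finset Filter Topology MeasureTheory
open scoped ComplexConjugate

/-- the logarithmic average `(1 / log N) ∑_{n ≤ N} b n / n` -/
noncomputable def logAv (b : ℕ → ℂ) (N : ℕ) : ℂ :=
  ((1 : ℂ) / ((Real.log (N : ℝ) : ℝ) : ℂ)) * ∑ n ∈ Icc 1 N, ((1 : ℂ) / (n : ℂ)) * b n

/-- multiplicative functions (no bound on the values) -/
def Mult (g : ℕ → ℂ) : Prop :=
  g 1 = 1 ∧ ∀ m n : ℕ, 0 < m → 0 < n → Nat.Coprime m n → g (m * n) = g m * g n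

/-- a set of primes with a divergent sum of reciprocals -/
def ManyPrimes (P : Set ℕ) : Prop :=
  (∀ p ∈ P, p.Prime) ∧ ¬ Summable (P.indicator fun n : ℕ => 1 / (n : ℝ))

section

variable {X : Type} [MetricSpace X] [CompactSpace X] [MeasurableSpace X] [BorelSpace X]

/-- totally uniquely ergodic systems; no condition on the entropy -/
def TUE (T : X → X) (μ : Measure X) : Prop :=
  Continuous T ∧ IsProbabilityMeasure μ ∧ MeasurePreserving T μ μ ∧
    ∀ k : ℕ, 1 ≤ k → ∀ ν : Measure X, IsProbabilityMeasure ν → MeasurePreserving (T^[k]) ν ν → ν = μ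

open scoped Classical in
/-- the assertion of Q1 for the level set `{n : g n = c}`, for all continuous functions and all
points -/
def Holds (T : X → X) (μ : Measure X) (g : ℕ → ℂ) (c : ℂ) : Prop :=
  ∀ (f : C(X, ℂ)) (x : X),
    Tendsto (logAv fun n => (if g n = c then (1 : ℂ) else 0) * (f (T^[n] x) - ∫ y, f y ∂μ))
      atTop (𝓝 0)

/-- `ν` is a joining of `T^p` and `T^q` -/
def Joining (T : X → X) (μ : Measure X) (p q : ℕ) (ν : Measure (X × X)) : Prop :=
  IsProbabilityMeasure ν ∧ MeasurePreserving (Prod.map (T^[p]) (T^[q])) ν ν ∧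
    ν.map Prod.fst = μ ∧ ν.map Prod.snd = μ

end

/-- The criterion of Kátai and Bourgain, Sarnak, Ziegler for the level sets of multiplicative
functions `g : ℕ → ℂ`, bounded or not. For a bounded sequence `a`: if the logarithmic averages of
`a(pn) conj a(qn)` tend to zero for all distinct `p`, `q` in a set of primes with a divergent sum of
reciprocals, then those of `1_{g(n) = c} a(n)` tend to zero for all `g` and `c`. For a totally
uniquely ergodic system of any entropy: the assertion of Q1 holds for all `g` and `c` if, for each `f`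
in a set of continuous functions with a dense span, there is a set of primes with a divergent sum of
reciprocals such that every joining of `T^p` and `T^q`, for distinct `p`, `q` in this set, integrates
`f ⊗ conj f` as the product measure does; in particular, if `T^p` and `T^q` are disjoint for all
distinct `p`, `q` in such a set of primes. -/
theorem result :
    (∀ (a : ℕ → ℂ) (C : ℝ), (∀ n, ‖a n‖ ≤ C) → ∀ P : Set ℕ, ManyPrimes P →
      (∀ p ∈ P, ∀ q ∈ P, p ≠ q →
        Tendsto (logAv fun n => a (p * n) * conj (a (q * n))) atTop (𝓝 0)) →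
      ∀ g : ℕ → ℂ, Mult g → ∀ c : ℂ,
        Tendsto (logAv fun n => (if g n = c then (1 : ℂ) else 0) * a n) atTop (𝓝 0)) ∧
    ∀ (X : Type) [MetricSpace X] [CompactSpace X] [MeasurableSpace X] [BorelSpace X]
      (T : X → X) (μ : Measure X), TUE T μ →
      (∀ D : Set C(X, ℂ), Dense (Submodule.span ℂ D : Set C(X, ℂ)) →
        (∀ f ∈ D, ∃ P : Set ℕ, ManyPrimes P ∧ ∀ p ∈ P, ∀ q ∈ P, p ≠ q →
          ∀ ν : Measure (X × X), Joining T μ p q ν →
            ∫ y, f y.1 * conj (f y.2) ∂ν = (∫ y, f y ∂μ) * conj (∫ y, f y ∂μ)) →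
        ∀ g : ℕ → ℂ, Mult g → ∀ c : ℂ, Holds T μ g c) ∧
      ((∃ P : Set ℕ, ManyPrimes P ∧ ∀ p ∈ P, ∀ q ∈ P, p ≠ q →
          ∀ ν : Measure (X × X), Joining T μ p q ν → ν = μ.prod μ) →
        ∀ g : ℕ → ℂ, Mult g → ∀ c : ℂ, Holds T μ g c) := by
  refine ⟨?_, ?_⟩
  · intro a C ha P hP hc g hg c
    exact Pool.Agent.Y868.ZE.level_katai hg ha hP.1 hP.2 hc c
  intro X _ _ _ _ T μ hT
  obtain ⟨hTc, hμ, hinv, huniq⟩ := hT
  have hgen : ∀ D : Set C(X, ℂ), Dense (Submodule.span ℂ D : Set C(X, ℂ)) →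
      (∀ f ∈ D, ∃ P : Set ℕ, ManyPrimes P ∧ ∀ p ∈ P, ∀ q ∈ P, p ≠ q →
        ∀ ν : Measure (X × X), Joining T μ p q ν →
          ∫ y, f y.1 * conj (f y.2) ∂ν = (∫ y, f y ∂μ) * conj (∫ y, f y ∂μ)) →
      ∀ g : ℕ → ℂ, Mult g → ∀ c : ℂ, Holds T μ g c := by
    intro D hD hP g hg c f x
    refine Pool.Agent.Y868.ZE.dyn hTc huniq D hD (fun f hf => ?_) hg c f x
    obtain ⟨P, hP1, hP2⟩ := hP f hf
    exact ⟨P, hP1.1, hP1.2, fun p hp q hq hpq ν h1 h2 h3 h4 =>
      hP2 p hp q hq hpq ν ⟨h1, h2, h3, h4⟩⟩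
  refine ⟨hgen, ?_⟩
  rintro ⟨P, hP1, hP2⟩ g hg c
  refine hgen Set.univ ?_ (fun f _ => ⟨P, hP1, fun p hp q hq hpq ν hν => ?_⟩) g hg c
  · rw [Submodule.span_univ]
    exact dense_univ
  · rw [hP2 p hp q hq hpq ν hν]
    rw [integral_prod_mul (f := fun y => f y) (g := fun y => conj (f y)), integral_conj]

end Pool.Agent.Results.MP_2e860a_nt.DisjointPowers
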