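import Mathlib
import Pool.Agent.Y868.ZE.K10

/-!
# Level sets along orbits: reduction to roots of unity

From the starting files: prerequisites of Halász's mean value theorem for multiplicative functions with
values in the unit disc, on which `Pool.Agent.Y868.VR` is built. From Mathlib: `MeasurePreserving (T^[k]) ν ν`
says that `ν` is invariant under the `k`-th iterate of `T`.
-/

set_option autoImplicit false

namespace Pool.Agent.Results.MP_2e860a_nt.RootsOfUnityReduction

open Finset Filter Topology MeasureTheory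

/-- the logarithmic average `(1 / log N) ∑_{n ≤ N} b n / n` -/
noncomputable def logAv (b : ℕ → ℂ) (N : ℕ) : ℂ :=
  ((1 : ℂ) / ((Real.log (N : ℝ) : ℝ) : ℂ)) * ∑ n ∈ Icc 1 N, ((1 : ℂ) / (n : ℂ)) * b n

/-- multiplicative functions (no bound on the values) -/
def Mult (g : ℕ → ℂ) : Prop :=
  g 1 = 1 ∧ ∀ m n : ℕ, 0 < m → 0 < n → Nat.Coprime m n → g (m * n) = g m * g n

/-- completely multiplicative functions whose values are `k`-th roots of unity -/
def RootCM (k : ℕ) (v : ℕ → ℂ) : Prop :=
  v 1 = 1 ∧ (∀ m n : ℕ, 0 < m → 0 < n → v (m * n) = v m * v n) ∧ ∀ n : ℕ, 0 < n → v n ^ k = 1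

section

variable {X : Type} [MetricSpace X] [CompactSpace X] [MeasurableSpace X] [BorelSpace X]

/-- totally uniquely ergodic systems; no condition on the entropy -/
def TUE (T : X → X) (μ : Measure X) : Prop :=
  Continuous T ∧ IsProbabilityMeasure μ ∧ MeasurePreserving T μ μ ∧
    ∀ k : ℕ, 1 ≤ k → ∀ ν : Measure X, IsProbabilityMeasure ν → MeasurePreserving (T^[k]) ν ν → ν = μ

open scoped Classical in
/-- the assertion of Q1 for the level set `{n : g n = c}`, for all continuous functions and all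
points -/
def Holds (T : X → X) (μ : Measure X) (g : ℕ → ℂ) (c : ℂ) : Prop :=
  ∀ (f : C(X, ℂ)) (x : X),
    Tendsto (logAv fun n => (if g n = c then (1 : ℂ) else 0) * (f (T^[n] x) - ∫ y, f y ∂μ))
      atTop (𝓝 0)

end

/-- Let `(X, μ, T)` be totally uniquely ergodic. If the logarithmic averages of `u(n) f(T^n x)` tend to
zero for all multiplicative `u` with values in the unit disc, all continuous `f` of zero integral and
all `x`, then the assertion of Q1 holds for all multiplicative `g : ℕ → ℂ`, bounded or not, and all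
`c`. Moreover, the assertion of Q1 for all powers of `T`, all `g` and all `c` is equivalent to its
analogue for the completely multiplicative functions whose values are roots of unity of bounded
order: for all powers of `T` the logarithmic averages of `v(n) (f(T^n x) - ∫ f dμ)` tend to zero. -/
theorem result :
    ∀ (X : Type) [MetricSpace X] [CompactSpace X] [MeasurableSpace X] [BorelSpace X]
      (T : X → X) (μ : Measure X), TUE T μ →
      ((∀ u : ℕ → ℂ, Mult u → (∀ n, ‖u n‖ ≤ 1) → ∀ f : C(X, ℂ), ∫ y, f y ∂μ = 0 → ∀ x : X,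
          Tendsto (logAv fun n => u n * f (T^[n] x)) atTop (𝓝 0)) →
        ∀ g : ℕ → ℂ, Mult g → ∀ c : ℂ, Holds T μ g c) ∧
      ((∀ d : ℕ, 1 ≤ d → ∀ g : ℕ → ℂ, Mult g → ∀ c : ℂ, Holds (T^[d]) μ g c) ↔
        ∀ d : ℕ, 1 ≤ d → ∀ k : ℕ, 1 ≤ k → ∀ v : ℕ → ℂ, RootCM k v → ∀ (f : C(X, ℂ)) (x : X),
          Tendsto (logAv fun n => v n * (f ((T^[d])^[n] x) - ∫ y, f y ∂μ)) atTop (𝓝 0)) := by
  intro X _ _ _ _ T μ hT
  obtain ⟨hTc, hμ, hinv, huniq⟩ := hT
  have hbd : ∀ (S : ℕ → X) (f : C(X, ℂ)) (n : ℕ), ‖f (S n) - ∫ y, f y ∂μ‖ ≤ ‖f‖ + ‖∫ y, f y ∂μ‖ :=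
    fun S f n => (norm_sub_le _ _).trans (add_le_add (f.norm_coe_le_norm _) le_rfl)
  refine ⟨?_, ?_⟩
  · intro h g hg c f x
    refine Pool.Agent.Y868.ZE.level_bdd hg (hbd (fun n => T^[n] x) f) (fun u hu1 hu2 => ?_) c
    have hint : Integrable (fun y => f y) μ :=
      Integrable.of_bound f.continuous.aestronglyMeasurable ‖f‖
        (Eventually.of_forall fun y => f.norm_coe_le_norm y)
    have h1 : ∫ y, (f - ContinuousMap.const X (∫ y, f y ∂μ)) y ∂μ = 0 := by
      simp only [ContinuousMap.sub_apply, ContinuousMap.const_apply]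
      rw [integral_sub hint (integrable_const _), integral_const]
      simp
    exact h u ⟨hu2.1, hu2.2⟩ hu1 _ h1 x
  · constructor
    · intro h d hd k hk v hv f x
      refine Pool.Agent.Y868.ZE.root_of_level hk hv.2.2 fun c => ?_
      exact h d hd v ⟨hv.1, fun m n hm hn _ => hv.2.1 m n hm hn⟩ c f x
    · intro h d hd g hg c f x
      refine Pool.Agent.Y868.ZE.full_red hg (hbd (fun n => (T^[d])^[n] x) f)
        (fun k hk v hv1 hv2 hv3 e he => ?_) c
      have h1 := h (d * e) (Nat.mul_pos hd he) k hk v ⟨hv1, hv2, hv3⟩ f x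
      refine h1.congr fun N => ?_
      change Pool.Agent.Y868.ZE.LA _ N = Pool.Agent.Y868.ZE.LA _ N
      congr 1
      funext n
      rw [← Function.iterate_mul, ← Function.iterate_mul, mul_assoc]

end Pool.Agent.Results.MP_2e860a_nt.RootsOfUnityReduction
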